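import Pool.Agent.H76.CL.Form

/-!
# A Chen type theorem for the numbers `n`, `a₁ n + 1`, ..., `aₛ n + 1`
-/

set_option autoImplicit false

namespace Pool.Agent.Results.MP_bca3e5_nt.ChenAlongPrimes

open Finset Pool.Agent.H76.CL

/-- **A Chen type theorem along primes.**  Let `A` be a finite set of positive integers which is admissible, that is, no
prime divides `n` times the product of the `a n + 1`, `a` in `A`, for all `n ≥ 1`.  For `θ > 0` there are `c, ε > 0`, `r`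
and `x₀` such that for all `x ≥ x₀` and `y ≤ (1 - θ) x` and for any two different of the forms `n`, `a n + 1`, `a` in
`A` (a form `u n + v` is given as the pair `(u, v)`): for at least `c x / (log x) ^ (|A| + 1)` of the integers
`y < n ≤ x` the value of the first is a prime, the value of the second is a prime or a product of two primes, both
`≥ x ^ (1 / 8)`, and the values of all the forms have at most `r` prime factors, all of them `≥ x ^ ε`. -/
theorem result : ∀ A : Finset ℕ, (∀ a ∈ A, 1 ≤ a) →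
    (∀ p : ℕ, p.Prime → ∃ n : ℕ, 1 ≤ n ∧ ¬ p ∣ n * ∏ a ∈ A, (a * n + 1)) → ∀ θ : ℝ, 0 < θ →
    ∃ c ε : ℝ, 0 < c ∧ 0 < ε ∧ ∃ r x₀ : ℕ, ∀ x : ℕ, x₀ ≤ x → ∀ y : ℕ, (y : ℝ) + θ * x ≤ x →
      ∀ s ∈ insert ((1 : ℕ), (0 : ℕ)) (A.image (fun a => (a, 1))),
      ∀ t ∈ insert ((1 : ℕ), (0 : ℕ)) (A.image (fun a => (a, 1))), s ≠ t →
        c * x / Real.log x ^ (A.card + 1) ≤
          ({n : ℕ | y < n ∧ n ≤ x ∧ (s.1 * n + s.2).Prime ∧
            (t.1 * n + t.2).primeFactorsList.length ≤ 2 ∧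
            (∀ q ∈ (t.1 * n + t.2).primeFactors, (x : ℝ) ^ (1 / 8 : ℝ) ≤ q) ∧
            ∀ u ∈ insert ((1 : ℕ), (0 : ℕ)) (A.image (fun a => (a, 1))),
              (u.1 * n + u.2).primeFactorsList.length ≤ r ∧
              ∀ q ∈ (u.1 * n + u.2).primeFactors, (x : ℝ) ^ ε ≤ q}.ncard : ℝ) := by
  classical
  intro A hA hadm θ hθ
  set T : Finset (ℕ × ℕ) := insert ((1 : ℕ), (0 : ℕ)) (A.image (fun a => (a, 1))) with hT
  have hTm : ∀ s ∈ T, 1 ≤ s.1 ∧ s.1 ≤ A.sup id + 1 ∧ s.2 ≤ 1 ∧ (s = (1, 0) ∨ (s.1 ∈ A ∧ s.2 = 1)) := by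
    intro s hs
    rw [hT, mem_insert, mem_image] at hs
    rcases hs with rfl | ⟨a, ha, rfl⟩
    · exact ⟨le_rfl, by show 1 ≤ _; omega, Nat.zero_le _, Or.inl rfl⟩
    · have h1 : a ≤ A.sup id := Finset.le_sup (f := id) ha
      exact ⟨hA a ha, by show a ≤ _; omega, le_rfl, Or.inr ⟨ha, rfl⟩⟩
  rcases A.eq_empty_or_nonempty with hA0 | hA0
  · refine ⟨1, 1, one_pos, one_pos, 0, 0, ?_⟩
    intro x hx y hy s hs t ht hst
    exfalso
    apply hst
    have h1 : T = {((1 : ℕ), (0 : ℕ))} := by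
      rw [hT, hA0]
      rfl
    rw [h1, mem_singleton] at hs ht
    rw [hs, ht]
  have hk : 2 ≤ A.card + 1 := by
    have := card_pos.2 hA0
    omega
  obtain ⟨ε, c, hε0, hε1, hc, r, B₀, hB₀⟩ := chen_pos (A.card + 1) (A.sup id + 1) hk (by omega) θ hθ
  refine ⟨c, ε, hc, hε0, r, B₀ + 2, ?_⟩
  intro x hx y hy s hs t ht hst
  set φ : ℕ × ℕ → ℤ × ℤ := fun s => ((s.1 : ℤ), (s.2 : ℤ)) with hφ
  have hφi : Function.Injective φ := by
    rintro ⟨a, b⟩ ⟨a', b'⟩ h
    rw [hφ] at h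
    simp only [Prod.mk.injEq, Nat.cast_inj] at h
    rw [h.1, h.2]
  set G : Finset (ℤ × ℤ) := T.image φ with hG
  have hmem : ∀ s ∈ T, φ s ∈ G := fun s hs => mem_image_of_mem _ hs
  have hval : ∀ (s : ℕ × ℕ) (n : ℕ), val (φ s) n = ((s.1 * n + s.2 : ℕ) : ℤ) := by
    intro s n
    show ((s.1 : ℕ) : ℤ) * n + ((s.2 : ℕ) : ℤ) = _
    push_cast
    ring
  have hx1 : (1 : ℤ) ≤ x := by exact_mod_cast (by omega : 1 ≤ x)
  have hsml : ∀ s ∈ T, |(φ s).2| ≤ ((A.sup id + 1 : ℕ) : ℤ) * x := by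
    intro s hs
    obtain ⟨h1, h2, h3, h4⟩ := hTm s hs
    show |((s.2 : ℕ) : ℤ)| ≤ _
    rw [Nat.abs_cast]
    have h5 : s.2 ≤ (A.sup id + 1) * x := by
      calc s.2 ≤ 1 := h3
        _ = 1 * 1 := rfl
        _ ≤ (A.sup id + 1) * x := Nat.mul_le_mul (by omega) (by omega)
    exact_mod_cast h5
  have hpos1 : ∀ s ∈ T, 1 ≤ (φ s).1 + (φ s).2 := by
    intro s hs
    obtain ⟨h1, h2, h3, h4⟩ := hTm s hs
    show (1 : ℤ) ≤ ((s.1 : ℕ) : ℤ) + ((s.2 : ℕ) : ℤ)
    omega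
  have hmain := (hB₀ x (by omega) y hy G (by
      refine card_image_le.trans ?_
      rw [hT]
      refine (card_insert_le _ _).trans ?_
      have := card_image_le (s := A) (f := fun a => (a, 1))
      omega) (φ s) (hmem s hs) (φ t) (hmem t ht) (fun he => hst (hφi he))
    (by
      intro f hf
      rw [hG, mem_image] at hf
      obtain ⟨u, hu, rfl⟩ := hf
      obtain ⟨h1, h2, h3, h4⟩ := hTm u hu
      refine ⟨?_, ?_, ?_⟩
      · show (1 : ℤ) ≤ ((u.1 : ℕ) : ℤ)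
        exact_mod_cast h1
      · show ((u.1 : ℕ) : ℤ) ≤ ((A.sup id + 1 : ℕ) : ℤ)
        exact_mod_cast h2
      · show |((u.2 : ℕ) : ℤ)| ≤ (x : ℤ) ^ (A.sup id + 1)
        rw [Nat.abs_cast]
        have h5 : ((u.2 : ℕ) : ℤ) ≤ 1 := by exact_mod_cast h3
        exact h5.trans (one_le_pow₀ hx1))
    (hsml s hs) (hsml t ht) (hpos1 s hs) (hpos1 t ht)
    (by
      show ((s.1 : ℕ) : ℤ) * ((t.2 : ℕ) : ℤ) - ((t.1 : ℕ) : ℤ) * ((s.2 : ℕ) : ℤ) ≠ 0
      obtain ⟨-, -, -, h4⟩ := hTm s hs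
      obtain ⟨-, -, -, h5⟩ := hTm t ht
      rcases h4 with rfl | ⟨h4, h4'⟩
      · rcases h5 with rfl | ⟨h5, h5'⟩
        · exact absurd rfl hst
        · rw [h5']
          norm_num
      · rcases h5 with rfl | ⟨h5, h5'⟩
        · rw [h4']
          norm_num
        · rw [h4', h5']
          intro h0
          apply hst
          have h6 : s.1 = t.1 := by push_cast at h0; omega
          exact Prod.ext h6 (by rw [h4', h5']))
    (by
      intro p hp
      obtain ⟨n, hn1, hn⟩ := hadm p hp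
      refine ⟨n, fun f hf => ?_⟩
      rw [hG, mem_image] at hf
      obtain ⟨u, hu, rfl⟩ := hf
      rw [hval]
      intro hd
      have hd' : p ∣ u.1 * n + u.2 := by exact_mod_cast hd
      apply hn
      obtain ⟨-, -, -, h4⟩ := hTm u hu
      rcases h4 with rfl | ⟨h4, h4'⟩
      · apply Dvd.dvd.mul_right
        simpa using hd'
      · apply Dvd.dvd.mul_left
        rw [h4'] at hd'
        exact hd'.trans (dvd_prod_of_mem (fun a => a * n + 1) h4))).1
  refine hmain.trans (card_le_ncard x ?_ ?_)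
  · intro n hn
    unfold Sys at hn
    rw [mem_filter, mem_Ioc] at hn
    obtain ⟨⟨h1, h2⟩, h3, h4, h5, h6⟩ := hn
    obtain ⟨i1, i2, i3⟩ := nat_val (hval s n)
    obtain ⟨j1, j2, j3⟩ := nat_val (hval t n)
    rw [i1] at h3
    rw [j1] at h4
    refine ⟨h1, h2, h3, h4, ?_, ?_⟩
    · intro q hq
      exact h5 q (Nat.prime_of_mem_primeFactors hq) ((j3 q).2 (Nat.dvd_of_mem_primeFactors hq))
    · intro u hu
      obtain ⟨l1, l2, l3⟩ := nat_val (hval u n)
      obtain ⟨g1, g2⟩ := h6 (φ u) (hmem u hu)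
      rw [l2] at g1
      exact ⟨g1, fun q hq => g2 q (Nat.prime_of_mem_primeFactors hq) ((l3 q).2 (Nat.dvd_of_mem_primeFactors hq))⟩
  · intro n hn
    exact hn.2.1

end Pool.Agent.Results.MP_bca3e5_nt.ChenAlongPrimes
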