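import Pool.Agent.H76.NA.Sys

/-!
# Szemerédi's theorem, with narrow progressions, for Chen type values of linear forms along primes
-/

set_option autoImplicit false

namespace Pool.Agent.Results.MP_bca3e5_nt.SzemerediAlongPrimes

open Finset Pool.Agent.H76.CL Pool.Agent.H76.NA

/-- **Szemerédi's theorem for Chen type values along primes.**  Let `A` be a finite set of positive integers which is
admissible, that is, no prime divides `n` times the product of the `a n + 1`, `a` in `A`, for all `n ≥ 1`.  For `θ > 0`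
there are `ε > 0` and `r` such that for all `m` and `δ > 0` there are `C` and `x₀` with the following property.  Let
`x ≥ x₀` and `y ≤ (1 - θ) x`, take any two different ones of the forms `n`, `a n + 1`, `a` in `A` (a form `u n + v` is
given as the pair `(u, v)`), and let `T` be the set of the integers `y < n ≤ x` for which the value of the first is a
prime, the value of the second is a prime or a product of two primes, both `≥ x ^ (1 / 9)`, and the values of all the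
forms have at most `r` prime factors, all of them `≥ x ^ ε`.  Then every subset `S` of `T` with at least `δ |T|`
elements contains an arithmetic progression of `m` terms with a difference `1 ≤ d ≤ (log x) ^ C`. -/
theorem result : ∀ A : Finset ℕ, (∀ a ∈ A, 1 ≤ a) →
    (∀ p : ℕ, p.Prime → ∃ n : ℕ, 1 ≤ n ∧ ¬ p ∣ n * ∏ a ∈ A, (a * n + 1)) → ∀ θ : ℝ, 0 < θ →
    ∃ ε : ℝ, 0 < ε ∧ ∃ r : ℕ, ∀ (m : ℕ) (δ : ℝ), 0 < δ → ∃ C x₀ : ℕ, ∀ x : ℕ, x₀ ≤ x → ∀ y : ℕ,
      (y : ℝ) + θ * x ≤ x →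
      ∀ s ∈ insert ((1 : ℕ), (0 : ℕ)) (A.image (fun a => (a, 1))),
      ∀ t ∈ insert ((1 : ℕ), (0 : ℕ)) (A.image (fun a => (a, 1))), s ≠ t →
      ∀ T : Set ℕ, T = {n : ℕ | y < n ∧ n ≤ x ∧ (s.1 * n + s.2).Prime ∧
            (t.1 * n + t.2).primeFactorsList.length ≤ 2 ∧
            (∀ q ∈ (t.1 * n + t.2).primeFactors, (x : ℝ) ^ (1 / 9 : ℝ) ≤ q) ∧
            ∀ u ∈ insert ((1 : ℕ), (0 : ℕ)) (A.image (fun a => (a, 1))),
              (u.1 * n + u.2).primeFactorsList.length ≤ r ∧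
              ∀ q ∈ (u.1 * n + u.2).primeFactors, (x : ℝ) ^ ε ≤ q} →
      ∀ S : Set ℕ, S ⊆ T → δ * (T.ncard : ℝ) ≤ (S.ncard : ℝ) →
        ∃ a d : ℕ, 1 ≤ d ∧ (d : ℝ) ≤ Real.log x ^ C ∧ ∀ j < m, a + j * d ∈ S := by
  classical
  intro A hA hadm θ hθ
  set L : Finset (ℕ × ℕ) := insert ((1 : ℕ), (0 : ℕ)) (A.image (fun a => (a, 1))) with hL
  have hLm : ∀ s ∈ L, 1 ≤ s.1 ∧ s.1 ≤ A.sup id + 1 ∧ s.2 ≤ 1 ∧ (s = (1, 0) ∨ (s.1 ∈ A ∧ s.2 = 1)) := by
    intro s hs
    rw [hL, mem_insert, mem_image] at hs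
    rcases hs with rfl | ⟨a, ha, rfl⟩
    · exact ⟨le_rfl, by show 1 ≤ _; omega, Nat.zero_le _, Or.inl rfl⟩
    · have h1 : a ≤ A.sup id := Finset.le_sup (f := id) ha
      exact ⟨hA a ha, by show a ≤ _; omega, le_rfl, Or.inr ⟨ha, rfl⟩⟩
  rcases A.eq_empty_or_nonempty with hA0 | hA0
  · refine ⟨1, one_pos, 0, fun m δ hδ => ⟨0, 0, ?_⟩⟩
    intro x hx y hy s hs t ht hst
    exfalso
    apply hst
    have h1 : L = {((1 : ℕ), (0 : ℕ))} := by
      rw [hL, hA0]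
      rfl
    rw [h1, mem_singleton] at hs ht
    rw [hs, ht]
  have hk : 2 ≤ A.card + 1 := by
    have := card_pos.2 hA0
    omega
  obtain ⟨ε, hε0, r, hh⟩ := szem_lin (A.card + 1) (A.sup id + 1) hk (by omega) θ hθ
  refine ⟨ε, hε0, r, fun m δ hδ => ?_⟩
  obtain ⟨C, B₀, hB₀⟩ := hh m δ hδ
  refine ⟨C, B₀ + 2, ?_⟩
  intro x hx y hy s hs t ht hst T hT
  set φ : ℕ × ℕ → ℤ × ℤ := fun s => ((s.1 : ℤ), (s.2 : ℤ)) with hφ
  have hφi : Function.Injective φ := by
    rintro ⟨a, b⟩ ⟨a', b'⟩ h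
    rw [hφ] at h
    simp only [Prod.mk.injEq, Nat.cast_inj] at h
    rw [h.1, h.2]
  set G : Finset (ℤ × ℤ) := L.image φ with hG
  have hmem : ∀ s ∈ L, φ s ∈ G := fun s hs => mem_image_of_mem _ hs
  have hval : ∀ (s : ℕ × ℕ) (n : ℕ), val (φ s) n = ((s.1 * n + s.2 : ℕ) : ℤ) := by
    intro s n
    show ((s.1 : ℕ) : ℤ) * n + ((s.2 : ℕ) : ℤ) = _
    push_cast
    ring
  have hx1 : (1 : ℤ) ≤ x := by exact_mod_cast (by omega : 1 ≤ x)
  have hsml : ∀ s ∈ L, |(φ s).2| ≤ ((A.sup id + 1 : ℕ) : ℤ) * x := by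
    intro s hs
    obtain ⟨h1, h2, h3, h4⟩ := hLm s hs
    show |((s.2 : ℕ) : ℤ)| ≤ _
    rw [Nat.abs_cast]
    have h5 : s.2 ≤ (A.sup id + 1) * x := by
      calc s.2 ≤ 1 := h3
        _ = 1 * 1 := rfl
        _ ≤ (A.sup id + 1) * x := Nat.mul_le_mul (by omega) (by omega)
    exact_mod_cast h5
  have hpos1 : ∀ s ∈ L, 1 ≤ (φ s).1 + (φ s).2 := by
    intro s hs
    obtain ⟨h1, h2, h3, h4⟩ := hLm s hs
    show (1 : ℤ) ≤ ((s.1 : ℕ) : ℤ) + ((s.2 : ℕ) : ℤ)
    omega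
  have hmain := hB₀ x (by omega) y hy G (by
      refine card_image_le.trans ?_
      rw [hL]
      refine (card_insert_le _ _).trans ?_
      have := card_image_le (s := A) (f := fun a => (a, 1))
      omega) (φ s) (hmem s hs) (φ t) (hmem t ht)
    (by
      intro f hf
      rw [hG, mem_image] at hf
      obtain ⟨u, hu, rfl⟩ := hf
      obtain ⟨h1, h2, h3, h4⟩ := hLm u hu
      refine ⟨?_, ?_, ?_⟩
      · show ((u.1 : ℕ) : ℤ) ≠ 0
        have : u.1 ≠ 0 := by omega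
        exact_mod_cast this
      · show |((u.1 : ℕ) : ℤ)| ≤ ((A.sup id + 1 : ℕ) : ℤ)
        rw [Nat.abs_cast]
        exact_mod_cast h2
      · show |((u.2 : ℕ) : ℤ)| ≤ (x : ℤ) ^ (A.sup id + 1)
        rw [Nat.abs_cast]
        have h5 : ((u.2 : ℕ) : ℤ) ≤ 1 := by exact_mod_cast h3
        exact h5.trans (one_le_pow₀ hx1))
    (hsml s hs) (hsml t ht)
    (by
      show ((s.1 : ℕ) : ℤ) * ((t.2 : ℕ) : ℤ) - ((t.1 : ℕ) : ℤ) * ((s.2 : ℕ) : ℤ) ≠ 0
      obtain ⟨-, -, -, h4⟩ := hLm s hs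
      obtain ⟨-, -, -, h5⟩ := hLm t ht
      rcases h4 with rfl | ⟨h4, h4'⟩
      · rcases h5 with rfl | ⟨h5, h5'⟩
        · exact absurd rfl hst
        · rw [h5']
          norm_num
      · rcases h5 with rfl | ⟨h5, h5'⟩
        · rw [h4']
          norm_num
        · rw [h4', h5']
          intro h0
          apply hst
          have h6 : s.1 = t.1 := by push_cast at h0; omega
          exact Prod.ext h6 (by rw [h4', h5']))
    (by
      intro p hp
      obtain ⟨n, hn1, hn⟩ := hadm p hp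
      refine ⟨n, fun f hf => ?_⟩
      rw [hG, mem_image] at hf
      obtain ⟨u, hu, rfl⟩ := hf
      rw [hval]
      intro hd
      have hd' : p ∣ u.1 * n + u.2 := by exact_mod_cast hd
      apply hn
      obtain ⟨-, -, -, h4⟩ := hLm u hu
      rcases h4 with rfl | ⟨h4, h4'⟩
      · apply Dvd.dvd.mul_right
        simpa using hd'
      · apply Dvd.dvd.mul_left
        rw [h4'] at hd'
        exact hd'.trans (dvd_prod_of_mem (fun a => a * n + 1) h4))
  have habs : ∀ (u : ℕ × ℕ) (n : ℕ), (val (φ u) n).natAbs = u.1 * n + u.2 := by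
    intro u n
    rw [hval, Int.natAbs_natCast]
  have hne : ∀ u ∈ L, ∀ n : ℕ, 1 ≤ n → u.1 * n + u.2 ≠ 0 := by
    intro u hu n hn
    have h1 := (hLm u hu).1
    have : 1 ≤ u.1 * n := Nat.mul_pos h1 hn
    omega
  apply to_set (U := SysA (φ s) (φ t) G y x r ε) ?_ hmain
  rw [hT]
  ext n
  rw [Set.mem_ofPred_eq, mem_coe, mem_SysA]
  constructor
  · rintro ⟨h1, h2, h3, h4, h5, h6⟩
    have hn1 : 1 ≤ n := by omega
    refine ⟨⟨h1, h2⟩, by rwa [habs], by rwa [habs], ?_, ?_⟩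
    · exact (fac_iff (habs t n) (hne t ht n hn1) _).2 h5
    · intro g hg
      rw [hG, mem_image] at hg
      obtain ⟨u, hu, rfl⟩ := hg
      exact ⟨by rw [habs]; exact (h6 u hu).1, (fac_iff (habs u n) (hne u hu n hn1) _).2 (h6 u hu).2⟩
  · rintro ⟨⟨h1, h2⟩, h3, h4, h5, h6⟩
    have hn1 : 1 ≤ n := by omega
    rw [habs] at h3 h4
    refine ⟨h1, h2, h3, h4, (fac_iff (habs t n) (hne t ht n hn1) _).1 h5, fun u hu => ?_⟩
    have h7 := h6 (φ u) (hmem u hu)
    rw [habs] at h7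
    exact ⟨h7.1, (fac_iff (habs u n) (hne u hu n hn1) _).1 h7.2⟩

end Pool.Agent.Results.MP_bca3e5_nt.SzemerediAlongPrimes
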